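import Pool.Agent.R852.MX.Top
import Pool.Agent.R852.MX.Roots

set_option autoImplicit false
set_option linter.unusedSectionVars false
set_option linter.unusedVariables false

/-! # The global motivic zeta functions of the mixed determinantal products -/

namespace Pool.Agent.T2H42.MM

open MvPolynomial Pool.Agent.W428.MOT Pool.Agent.TH192.DT Pool.Agent.TH192.MT
  Pool.Agent.R852.MX

section

variable {K : Type} [Field K] {T B : ℕ} {R : Type} [CommRing R]

/-- **The zeta functions of the product families**, with arbitrary leading coefficients. -/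
theorem rt_blk (X : Sys T) (β : Fin T → Fin B) {M : Meas K R} {u : Rˣ} {D : Set (ℤ × ℤ)}
    (a : Fin B → ℕ) (ha : ∀ b, 0 < a b) (hX : Rt u M (fun t => a (β t)) D X) :
    Rt u M a D (XM X β) := by
  intro π _ V hV hG
  rw [gfM_eq X β M _ hV hG a ha]
  exact hX π _ (constr_VM X β hV) (gd_VM X β V)

theorem mix_rt (S : MSpace) {u : Rˣ} {M : Meas K R} (hu : M.L = (u : R)) (p : Fin T → ℕ)
    (β : Fin T → Fin B) (a : Fin B → ℕ) (ha : ∀ b, 0 < a b) :
    Rt u M a (Dset S.codim p (fun t => a (β t)) 0) (mixSys S p β) := by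
  have h1 := rt_blk (topSys S p) β a ha (top_rt S hu p (fun t => a (β t)) fun t => ha (β t))
  refine rt_change (Xs := mixSys S p β) (Ys := XM (topSys S p) β) hu (Equiv.refl _) ?_ h1
  intro A _ x b
  unfold fI
  congr 1
  ext y
  constructor
  · rintro ⟨⟨b', J⟩, hb, rfl⟩
    have hb' : b' = b := hb
    subst hb'
    refine ⟨⟨b', ⟨fun t => ⟨t.1, J t⟩, fun t => rfl⟩⟩, rfl, ?_⟩
    change ev x (∏ t, minor S (p t.1) (J t)) = ev x (∏ t, S.minorsZ (p t.1) (J t))
    congr 1
    exact Finset.prod_congr rfl fun t _ => minor_eq S (p t.1) (J t)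
  · rintro ⟨⟨b', c⟩, hb, rfl⟩
    have hb' : b' = b := hb
    subst hb'
    have h2 : ∀ t : {t // β t = b'}, ∃ j : S.Idx (p t.1),
        (topSys S p).G (c.1 t) = minor S (p t.1) j := by
      intro t
      have h3 : ∀ (l : Σ t, S.Idx (p t)) (t : Fin T), l.1 = t →
          ∃ j : S.Idx (p t), S.minorsZ (p l.1) l.2 = minor S (p t) j := by
        rintro ⟨t', j⟩ t rfl
        exact ⟨j, (minor_eq S _ _).symm⟩
      exact h3 (c.1 t) t.1 (c.2 t)
    choose j hj using h2
    refine ⟨⟨b', j⟩, rfl, ?_⟩
    change ev x (∏ t, (topSys S p).G (c.1 t)) = ev x (∏ t, minor S (p t.1) (j t))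
    congr 1
    exact Finset.prod_congr rfl fun t _ => hj t

end

/-- **The zeta functions of the mixed determinantal products**, for the jets with origin in `W` and
leading coefficient in `E`. -/
theorem mix_zetaM {K : Type} [Field K] [CharZero K] (S : MSpace) {T B : ℕ} (p : Fin T → ℕ)
    (β : Fin T → Fin B) (a : Fin B → ℕ) (hp : ∀ t, S.Small (p t)) (ha : ∀ b, 0 < a b)
    {W : Set (Pt K ((Σ b, ((t : {t // β t = b}) → S.Idx (p t.1))) ⊕ S.Var))} (hW : Constr W)
    {E : Set (AlgebraicClosure K)} (hE : GoodE E) :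
    zetaM (map (Int.castRingHom K) (mixForm S p β a)) W E ∈
      ratRing K (mixPairs S p β a : Set (ℤ × ℤ)) := by
  classical
  obtain ⟨M, hL, hM⟩ := exists_meas K
  have h1 := zetaS_mem (X := mixSys S p β) (a := a) hL ha
    (D := (mixPairs S p β a : Set (ℤ × ℤ)))
    (fun π _ V hV hG => rat_mono (Lu K)
      ((Dset_det S p (fun t => a (β t)) hp).trans (by
        rw [Finset.coe_subset, mixPairs]
        exact Finset.subset_union_left))
      (mix_rt S hL p β a ha π V hV hG))
    (fun b => by
      rw [Finset.mem_coe, mixPairs, Finset.mem_union]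
      exact Or.inr (Finset.mem_image.2 ⟨b, Finset.mem_univ b, rfl⟩))
    (W := W) hW (E := E) hE
  rw [fX_mix] at h1
  have h2 : zetaM (map (Int.castRingHom K) (mixForm S p β a)) W E =
      zetaS M (((Lu K)⁻¹ : (MK K)ˣ) : MK K) (map (Int.castRingHom K) (mixForm S p β a)) W E := by
    unfold zetaM zetaS
    congr 1
    funext d
    rw [hM, inv_pow_eq, Nat.mul_comm]
  rw [h2]
  exact h1

end Pool.Agent.T2H42.MM
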