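import Pool.Agent.T2H42.MM.Mix

set_option autoImplicit false

/-! # The mixed determinantal products: names for the statement -/

namespace Pool.Agent.T2H42.MM

open MvPolynomial Pool.Agent.W428.MOT Pool.Agent.TH192.DT Pool.Agent.TH192.MT
  Pool.Agent.R852.MX

/-- The index set of the variables `y_{b,J}`, where `J` runs over the choices of one minor (Pfaffian)
of size `p t` for each `t` with `β t = b`, and of the variables `x`. -/
def MixVar (S : MSpace) {T B : ℕ} (p : Fin T → ℕ) (β : Fin T → Fin B) : Type :=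
  (Σ b, ((t : {t // β t = b}) → S.Idx (p t.1))) ⊕ S.Var

noncomputable instance (S : MSpace) {T B : ℕ} (p : Fin T → ℕ) (β : Fin T → Fin B) :
    Fintype (MixVar S p β) :=
  inferInstanceAs (Fintype ((Σ b, ((t : {t // β t = b}) → S.Idx (p t.1))) ⊕ S.Var))

/-- The polynomial `∏ b, (∑_J y_{b,J} ∏_{β t = b} M_{J t}(x)) ^ a b` over the field `K`. -/
noncomputable def mixOver (K : Type) [Field K] (S : MSpace) {T B : ℕ} (p : Fin T → ℕ)
    (β : Fin T → Fin B) (a : Fin B → ℕ) : MvPolynomial (MixVar S p β) K :=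
  map (Int.castRingHom K) (mixForm S p β a)

theorem over_roots (S : MSpace) {T B : ℕ} (p : Fin T → ℕ) (β : Fin T → Fin B) (a : Fin B → ℕ)
    (hp : ∀ t, S.Small (p t)) (ha : ∀ b, 0 < a b) (q : ℤ × ℤ) (hq : q ∈ mixPairs S p β a) :
    q.1 < 0 ∧ 0 < q.2 ∧ ∀ b : Polynomial ℂ,
      Pool.Agent.H628R4.TP.IsBFunction (mixOver ℂ S p β a) b →
        b.eval ((q.1 : ℂ) / q.2) = 0 :=
  ⟨(mix_roots S p β a hp ha q hq).1, (mix_roots S p β a hp ha q hq).2.1,
    (mix_roots S p β a hp ha q hq).2.2.1⟩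

theorem over_zeta {K : Type} [Field K] [CharZero K] (S : MSpace) {T B : ℕ} (p : Fin T → ℕ)
    (β : Fin T → Fin B) (a : Fin B → ℕ) (hp : ∀ t, S.Small (p t)) (ha : ∀ b, 0 < a b)
    {W : Set (Pt K (MixVar S p β))} (hW : Constr W) :
    zetaM (mixOver K S p β a) W {1} ∈ ratRing K (mixPairs S p β a : Set (ℤ × ℤ)) :=
  mix_zetaM S p β a hp ha hW good_one

end Pool.Agent.T2H42.MM
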